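import Mathlib
import Pool.Agent.TH53.UG6
import Pool.Agent.H338R2.Smyth2

/-!
# Lower bounds for the Mahler measure: many real conjugates; nonreciprocal units
-/

set_option autoImplicit false

open Polynomial Finset Module
open scoped ComplexConjugate

namespace Pool.Agent.R976.UG

open Pool.Agent.TH53.UG Pool.Agent.H338R2 Pool.Agent.W963.GE

lemma small_ineq (m : ℕ) (u : ℝ) (hu : 0 ≤ u) (hu1 : u ≤ 1) :
    ((m : ℝ) + 1) * (u ^ m * (1 - u)) ≤ 1 := by
  have h1 : ((m : ℝ) + 1) * u ^ m ≤ ∑ j ∈ range (m + 1), u ^ j := by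
    have h : ∑ j ∈ range (m + 1), u ^ m ≤ ∑ j ∈ range (m + 1), u ^ j := by
      apply Finset.sum_le_sum
      intro j hj
      exact pow_le_pow_of_le_one hu hu1 (by rw [mem_range] at hj; omega)
    simpa using h
  have h2 : (∑ j ∈ range (m + 1), u ^ j) * (1 - u) = 1 - u ^ (m + 1) := by
    have := geom_sum_mul u (m + 1)
    linarith
  have h3 : ((m : ℝ) + 1) * u ^ m * (1 - u) ≤ (∑ j ∈ range (m + 1), u ^ j) * (1 - u) :=
    mul_le_mul_of_nonneg_right h1 (by linarith)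
  have h4 : 0 ≤ u ^ (m + 1) := by positivity
  calc ((m : ℝ) + 1) * (u ^ m * (1 - u)) = ((m : ℝ) + 1) * u ^ m * (1 - u) := by ring
    _ ≤ 1 - u ^ (m + 1) := by rw [← h2]; exact h3
    _ ≤ 1 := by linarith

lemma real_ineq' (m : ℕ) (s : ℝ) (hs : 0 ≤ s) :
    ((m : ℝ) + 1) * (s ^ (2 * m) * |s ^ 2 - 1|) ≤ (max 1 s) ^ (4 * m + 2) := by
  rcases le_total s 1 with h | h
  · rw [max_eq_left h, one_pow]
    have h1 : s ^ 2 ≤ 1 := by nlinarith
    rw [abs_of_nonpos (by linarith), pow_mul]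
    have := small_ineq m (s ^ 2) (sq_nonneg _) h1
    calc ((m : ℝ) + 1) * ((s ^ 2) ^ m * -(s ^ 2 - 1)) = ((m : ℝ) + 1) * ((s ^ 2) ^ m * (1 - s ^ 2)) := by
          ring
      _ ≤ 1 := this
  · rw [max_eq_right h]
    have hs0 : 0 < s := by linarith
    have h1 : 1 ≤ s ^ 2 := by nlinarith
    rw [abs_of_nonneg (by linarith)]
    have hr : (1 / s) ^ 2 ≤ 1 := by
      rw [div_pow, one_pow, div_le_one (by positivity)]
      exact h1
    have h2 := small_ineq m ((1 / s) ^ 2) (sq_nonneg _) hr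
    have h3 : s ^ (4 * m + 2) * (((m : ℝ) + 1) * (((1 / s) ^ 2) ^ m * (1 - (1 / s) ^ 2))) =
        ((m : ℝ) + 1) * (s ^ (2 * m) * (s ^ 2 - 1)) := by
      have e1 : s ^ (4 * m + 2) = s ^ (2 * m) * (s ^ (2 * m) * s ^ 2) := by ring
      have e2 : ((1 / s) ^ 2) ^ m = 1 / s ^ (2 * m) := by
        rw [← pow_mul, div_pow, one_pow]
      rw [e1, e2]
      field_simp
    have h4 : s ^ (4 * m + 2) * (((m : ℝ) + 1) * (((1 / s) ^ 2) ^ m * (1 - (1 / s) ^ 2))) ≤
        s ^ (4 * m + 2) * 1 := mul_le_mul_of_nonneg_left h2 (by positivity)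
    rw [h3, mul_one] at h4
    exact h4

lemma real_root' (m : ℕ) {a : ℂ} (ha : a.im = 0) :
    ((m : ℝ) + 1) * (‖(0:ℂ) - a‖ ^ (2 * m) * (‖(1:ℂ) - a‖ * ‖(-1:ℂ) - a‖)) ≤
      (max 1 ‖a‖) ^ (4 * m + 2) := by
  have h1 : a = (a.re : ℂ) := by
    apply Complex.ext
    · simp
    · simp [ha]
  have h3 : ‖a‖ = |a.re| := by
    conv_lhs => rw [h1]
    rw [Complex.norm_real, Real.norm_eq_abs]
  have h2 : ‖(1:ℂ) - a‖ * ‖(-1:ℂ) - a‖ = |‖a‖ ^ 2 - 1| := by
    rw [← norm_mul, h3, sq_abs]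
    conv_lhs => rw [h1]
    have : ((1:ℂ) - (a.re : ℂ)) * ((-1:ℂ) - (a.re : ℂ)) = ((a.re ^ 2 - 1 : ℝ) : ℂ) := by
      push_cast; ring
    rw [this, Complex.norm_real, Real.norm_eq_abs]
  have h4 : ‖(0:ℂ) - a‖ = ‖a‖ := by rw [zero_sub, norm_neg]
  rw [h2, h4]
  exact real_ineq' m ‖a‖ (norm_nonneg a)

lemma cplx_root' (m : ℕ) (a : ℂ) :
    ‖(0:ℂ) - a‖ ^ (2 * m) * (‖(1:ℂ) - a‖ * ‖(-1:ℂ) - a‖) ≤ 2 * (max 1 ‖a‖) ^ (4 * m + 2) := by
  set M := max 1 ‖a‖ with hM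
  have hM1 : 1 ≤ M := le_max_left _ _
  have hMa : ‖a‖ ≤ M := le_max_right _ _
  have h4 : ‖(0:ℂ) - a‖ = ‖a‖ := by rw [zero_sub, norm_neg]
  have h2 : ‖(1:ℂ) - a‖ * ‖(-1:ℂ) - a‖ ≤ 2 * M ^ 2 := by
    rw [← norm_mul]
    have : ((1:ℂ) - a) * ((-1:ℂ) - a) = a ^ 2 - 1 := by ring
    rw [this]
    calc ‖a ^ 2 - 1‖ ≤ ‖a ^ 2‖ + ‖(1 : ℂ)‖ := norm_sub_le _ _
      _ = ‖a‖ ^ 2 + 1 := by rw [norm_pow, norm_one]
      _ ≤ M ^ 2 + M ^ 2 := by
          have h5 : ‖a‖ ^ 2 ≤ M ^ 2 := pow_le_pow_left₀ (norm_nonneg a) hMa 2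
          have h6 : 1 ≤ M ^ 2 := one_le_pow₀ hM1
          linarith
      _ = 2 * M ^ 2 := by ring
  rw [h4]
  calc ‖a‖ ^ (2 * m) * (‖(1:ℂ) - a‖ * ‖(-1:ℂ) - a‖) ≤ M ^ (2 * m) * (2 * M ^ 2) :=
        mul_le_mul (pow_le_pow_left₀ (norm_nonneg a) hMa _) h2 (by positivity) (by positivity)
    _ = 2 * M ^ (2 * m + 2) := by ring
    _ ≤ 2 * M ^ (4 * m + 2) := by
        apply mul_le_mul_of_nonneg_left _ (by norm_num)
        exact pow_le_pow_right₀ hM1 (by omega)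

/-- an integer is a conjugate only of itself -/
lemma int_conj {x : ℂ} (hx : IsIntegral ℤ x) (m : ℤ) (hm : (m : ℂ) ∈ conjs x) : x = m := by
  have h1 : (X - C m : ℤ[X]) ∣ minpoly ℤ x := by
    rw [dvd_iff_isRoot, IsRoot.def]
    have h2 := (mem_conjs hx).mp hm
    have h3 : aeval (m : ℂ) (minpoly ℤ x) = (((minpoly ℤ x).eval m : ℤ) : ℂ) := by
      have := Polynomial.aeval_algebraMap_apply ℂ m (minpoly ℤ x)
      simpa using this
    rw [h3] at h2
    exact_mod_cast h2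
  have h2 : Associated (X - C m : ℤ[X]) (minpoly ℤ x) :=
    (irreducible_X_sub_C m).associated_of_dvd (minpoly.irreducible hx) h1
  have h3 : (X - C m : ℤ[X]) = minpoly ℤ x :=
    eq_of_monic_of_associated (monic_X_sub_C m) (minpoly.monic hx) h2
  have h4 := minpoly.aeval ℤ x
  rw [← h3] at h4
  simp at h4
  exact sub_eq_zero.mp h4

/-- number of real conjugates -/
noncomputable def nreal (x : ℂ) : ℕ := by
  classical
  exact ((conjs x).filter (fun a => a.im = 0)).card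

/-- **many real conjugates** -/
theorem many_real {x : ℂ} (hx : IsIntegral ℤ x) (h0 : x ≠ 0) (hroot : ∀ m > 0, x ^ m ≠ 1) (m : ℕ) :
    (2 * ((m : ℝ) + 1)) ^ nreal x ≤ 2 ^ (minpoly ℤ x).natDegree * MM x ^ (4 * m + 2) := by
  classical
  have e0 : ((0 : ℤ) : ℂ) ∉ conjs x := fun h => h0 (by rw [int_conj hx 0 h]; simp)
  have e1 : ((1 : ℤ) : ℂ) ∉ conjs x := fun h => hroot 1 one_pos (by rw [int_conj hx 1 h]; simp)
  have e2 : ((-1 : ℤ) : ℂ) ∉ conjs x := fun h => hroot 2 two_pos (by rw [int_conj hx (-1) h]; simp)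
  have p0 := prod_eval hx 0 e0
  have p1 := prod_eval hx 1 e1
  have p2 := prod_eval hx (-1) e2
  push_cast at p0 p1 p2
  have h1 : (1 : ℝ) ≤ ∏ a ∈ conjs x, ‖(0:ℂ) - a‖ ^ (2 * m) * (‖(1:ℂ) - a‖ * ‖(-1:ℂ) - a‖) := by
    rw [Finset.prod_mul_distrib, Finset.prod_mul_distrib, Finset.prod_pow]
    exact one_le_mul_of_one_le_of_one_le (one_le_pow₀ p0)
      (one_le_mul_of_one_le_of_one_le p1 p2)
  have hm : (0 : ℝ) < (m : ℝ) + 1 := by positivity
  have h2 : ∏ a ∈ conjs x, ‖(0:ℂ) - a‖ ^ (2 * m) * (‖(1:ℂ) - a‖ * ‖(-1:ℂ) - a‖) ≤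
      ∏ a ∈ conjs x, ((if a.im = 0 then 1 / ((m : ℝ) + 1) else 2) * (max 1 ‖a‖) ^ (4 * m + 2)) := by
    apply Finset.prod_le_prod
    · intro a _; positivity
    · intro a ha
      split_ifs with him
      · have := real_root' m him
        rw [div_mul_eq_mul_div, one_mul, le_div_iff₀ hm]
        linarith
      · exact cplx_root' m a
  have h3 : ∏ a ∈ conjs x, ((if a.im = 0 then 1 / ((m : ℝ) + 1) else 2) *
      (max 1 ‖a‖) ^ (4 * m + 2)) =
      ((1 / ((m : ℝ) + 1)) ^ nreal x * 2 ^ ((conjs x).filter (fun a => ¬ a.im = 0)).card) *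
        MM x ^ (4 * m + 2) := by
    rw [Finset.prod_mul_distrib, Finset.prod_ite, Finset.prod_const, Finset.prod_const,
      Pool.Agent.TH53.UG.MM_prod hx, Finset.prod_pow]
    rfl
  rw [h3] at h2
  have h4 := h1.trans h2
  have hcard : nreal x + ((conjs x).filter (fun a => ¬ a.im = 0)).card =
      (minpoly ℤ x).natDegree := by
    rw [← card_conjs hx]
    unfold nreal
    exact Finset.card_filter_add_card_filter_not _
  calc (2 * ((m : ℝ) + 1)) ^ nreal x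
      = (2 * ((m : ℝ) + 1)) ^ nreal x * 1 := by ring
    _ ≤ (2 * ((m : ℝ) + 1)) ^ nreal x * (((1 / ((m : ℝ) + 1)) ^ nreal x *
          2 ^ ((conjs x).filter (fun a => ¬ a.im = 0)).card) * MM x ^ (4 * m + 2)) :=
        mul_le_mul_of_nonneg_left h4 (by positivity)
    _ = (((m : ℝ) + 1) * (1 / ((m : ℝ) + 1))) ^ nreal x *
          (2 ^ nreal x * 2 ^ ((conjs x).filter (fun a => ¬ a.im = 0)).card) *
            MM x ^ (4 * m + 2) := by
        rw [mul_pow, mul_pow]; ring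
    _ = 2 ^ (minpoly ℤ x).natDegree * MM x ^ (4 * m + 2) := by
        rw [mul_one_div_cancel hm.ne', one_pow, one_mul, ← pow_add, hcard]

/-- if at least the proportion `1/N` of the conjugates is real -/
theorem four_le {x : ℂ} (hx : IsIntegral ℤ x) (h0 : x ≠ 0) (hroot : ∀ m > 0, x ^ m ≠ 1)
    (hd : 2 ≤ (minpoly ℤ x).natDegree) {N : ℕ} (hN : 1 ≤ N)
    (h : (minpoly ℤ x).natDegree ≤ N * nreal x) : (4 : ℝ) ≤ MM x ^ (2 * 4 ^ N) := by
  obtain ⟨K, hK⟩ : ∃ K, N = K + 1 := ⟨N - 1, by omega⟩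
  set m : ℕ := 2 ^ (2 * K + 1) - 1 with hm
  have hpow : 1 ≤ 2 ^ (2 * K + 1) := Nat.one_le_two_pow
  have hm1 : ((m : ℝ) + 1) = 2 ^ (2 * K + 1) := by
    rw [hm, Nat.cast_sub hpow]
    push_cast
    ring
  have hm2 : 2 * ((m : ℝ) + 1) = 4 ^ N := by
    rw [hm1, hK]
    have : (4 : ℝ) = 2 ^ 2 := by norm_num
    rw [this, ← pow_mul, ← pow_succ']
    congr 1
  have hme : 4 * m + 2 ≤ 2 * 4 ^ N := by
    have h1 : 4 ^ N = 2 * 2 ^ (2 * K + 1) := by
      rw [hK]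
      have : (4 : ℕ) = 2 ^ 2 := by norm_num
      rw [this, ← pow_mul, ← pow_succ']
      congr 1
    omega
  have h1 := many_real hx h0 hroot m
  rw [hm2, ← pow_mul] at h1
  have h2 : (4 : ℝ) ^ (minpoly ℤ x).natDegree ≤ 4 ^ (N * nreal x) :=
    pow_le_pow_right₀ (by norm_num) h
  have h3 := h2.trans h1
  have h4 : (4 : ℝ) ^ (minpoly ℤ x).natDegree = 2 ^ (minpoly ℤ x).natDegree *
      2 ^ (minpoly ℤ x).natDegree := by
    rw [← mul_pow]; norm_num
  rw [h4] at h3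
  have h5 : (2 : ℝ) ^ (minpoly ℤ x).natDegree ≤ MM x ^ (4 * m + 2) :=
    le_of_mul_le_mul_left h3 (by positivity)
  have h6 : (2 : ℝ) ^ 2 ≤ 2 ^ (minpoly ℤ x).natDegree := pow_le_pow_right₀ (by norm_num) hd
  calc (4 : ℝ) = 2 ^ 2 := by norm_num
    _ ≤ _ := h6
    _ ≤ _ := h5
    _ ≤ _ := pow_le_pow_right₀ (MM_ge x hx) hme

lemma aeval_rev {y : ℂ} (hy : y ≠ 0) (p : ℤ[X]) :
    aeval y⁻¹ p.reverse = 0 ↔ aeval y p = 0 := by
  have : Invertible y := invertibleOfNonzero hy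
  have h := eval₂_reverse_eq_zero_iff (algebraMap ℤ ℂ) y p
  rw [invOf_eq_inv] at h
  exact h

/-- the constant coefficient of the minimal polynomial of a unit -/
lemma coeff_zero_unit {x : ℂ} (hx : IsIntegral ℤ x) (h0 : x ≠ 0) (hi : IsIntegral ℤ x⁻¹) :
    |(minpoly ℤ x).coeff 0| = 1 := by
  set f := minpoly ℤ x with hf
  set g := minpoly ℤ x⁻¹ with hg
  have hf0 : f.coeff 0 ≠ 0 := by
    intro h
    have h1 : (X : ℤ[X]) ∣ f := X_dvd_iff.mpr h
    obtain ⟨q, hq⟩ := h1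
    have hirr := minpoly.irreducible hx
    have h2 := minpoly.aeval ℤ x
    rw [← hf] at hirr h2
    rcases hirr.isUnit_or_isUnit hq with h3 | h3
    · exact not_isUnit_X h3
    · rw [hq, map_mul, aeval_X] at h2
      rcases mul_eq_zero.mp h2 with h4 | h4
      · exact h0 h4
      · have h5 := h3.map (aeval x : ℤ[X] →ₐ[ℤ] ℂ)
        rw [h4] at h5
        exact not_isUnit_zero h5
  have hfm : f.Monic := minpoly.monic hx
  have hgm : g.Monic := minpoly.monic hi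
  -- `x⁻¹` is a root of the reverse
  have h1 : aeval x⁻¹ f.reverse = 0 := (aeval_rev h0 f).2 (minpoly.aeval ℤ x)
  have h2 : g ∣ f.reverse := minpoly.isIntegrallyClosed_dvd hi h1
  -- `x` is a root of the reverse of `g`
  have h3 : aeval x g.reverse = 0 := by
    have h4 := (aeval_rev (inv_ne_zero h0) g).2 (minpoly.aeval ℤ x⁻¹)
    rw [inv_inv] at h4
    exact h4
  have h4 : f ∣ g.reverse := minpoly.isIntegrallyClosed_dvd hx h3
  have hd1 : f.reverse.natDegree = f.natDegree := by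
    rw [reverse_natDegree, natTrailingDegree_eq_zero.2 (Or.inr hf0)]; simp
  have hd2 : g.natDegree ≤ f.natDegree := by
    rw [← hd1]
    apply natDegree_le_of_dvd h2
    intro h
    rw [reverse_eq_zero] at h
    rw [h] at hf0
    simp at hf0
  have hd3 : f.natDegree ≤ g.natDegree := by
    have : g.reverse ≠ 0 := by
      intro h
      rw [reverse_eq_zero] at h
      exact hgm.ne_zero h
    exact (natDegree_le_of_dvd h4 this).trans (reverse_natDegree_le g)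
  obtain ⟨q, hq⟩ := h2
  have hq1 : q.natDegree = 0 := by
    have h5 : f.reverse.natDegree = g.natDegree + q.natDegree := by
      rw [hq, hgm.natDegree_mul']
      intro h
      rw [h, mul_zero, reverse_eq_zero] at hq
      rw [hq] at hf0
      simp at hf0
    omega
  obtain ⟨c, hc⟩ := natDegree_eq_zero.mp hq1
  have h6 : f.reverse.coeff 0 = g.coeff 0 * c := by
    rw [hq, ← hc, coeff_mul_C]
  have h7 : f.reverse.coeff 0 = 1 := by
    rw [coeff_zero_reverse]; exact hfm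
  have h8 : f.reverse.leadingCoeff = c := by
    rw [hq, ← hc, leadingCoeff_mul, hgm.leadingCoeff, leadingCoeff_C, one_mul]
  have h9 : f.reverse.leadingCoeff = f.coeff 0 := by
    rw [reverse_leadingCoeff, trailingCoeff, natTrailingDegree_eq_zero.2 (Or.inr hf0)]
  have h10 : f.coeff 0 * g.coeff 0 = 1 := by
    rw [← h9, h8, mul_comm, ← h6, h7]
  have h11 : IsUnit (f.coeff 0) := IsUnit.of_mul_eq_one _ h10
  rw [Int.isUnit_iff] at h11
  rcases h11 with h | h <;> rw [h] <;> simp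

/-- **nonreciprocal units** -/
theorem nonrecip {x : ℂ} (hx : IsIntegral ℤ x) (h0 : x ≠ 0) (hi : IsIntegral ℤ x⁻¹)
    (hnr : aeval x⁻¹ (minpoly ℤ x) ≠ 0) : (1.28 : ℝ) ≤ MM x := by
  have h1 := smyth_lite (minpoly.monic hx) (coeff_zero_unit hx h0 hi) (by
    intro h
    apply hnr
    rw [h, map_mul]
    rw [(aeval_rev h0 _).2 (minpoly.aeval ℤ x), mul_zero])
  have h2 : MM x ≤ 2 * (MM x ^ 2 - 1) := h1
  have h3 := MM_ge x hx
  by_contra hcon
  push Not at hcon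
  nlinarith

/-- a unit of odd degree that is not a root of unity is not a conjugate of its inverse -/
theorem nonrec_of_odd {x : ℂ} (hx : IsIntegral ℤ x) (h0 : x ≠ 0)
    (hroot : ∀ m > 0, x ^ m ≠ 1) (hodd : Odd (minpoly ℤ x).natDegree) :
    aeval x⁻¹ (minpoly ℤ x) ≠ 0 := by
  classical
  intro h
  have e0 : ((0 : ℤ) : ℂ) ∉ conjs x := fun h => h0 (by rw [int_conj hx 0 h]; simp)
  have e1 : ((1 : ℤ) : ℂ) ∉ conjs x := fun h => hroot 1 one_pos (by rw [int_conj hx 1 h]; simp)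
  have e2 : ((-1 : ℤ) : ℂ) ∉ conjs x := fun h => hroot 2 two_pos (by rw [int_conj hx (-1) h]; simp)
  push_cast at e0 e1 e2
  have hinv : ∀ a ∈ conjs x, a⁻¹ ∈ conjs x := by
    intro a ha
    have ha0 : a ≠ 0 := fun h => e0 (h ▸ ha)
    rw [mem_conjs hx] at ha ⊢
    -- `minpoly x` divides its reverse
    have h1 : aeval x (minpoly ℤ x).reverse = 0 := by
      have h3 := (aeval_rev (inv_ne_zero h0) (minpoly ℤ x)).2 h
      rw [inv_inv] at h3
      exact h3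
    obtain ⟨q, hq⟩ := minpoly.isIntegrallyClosed_dvd hx h1
    have h2 : aeval a (minpoly ℤ x).reverse = 0 := by rw [hq, map_mul, ha, zero_mul]
    apply (aeval_rev (inv_ne_zero ha0) (minpoly ℤ x)).1
    rw [inv_inv]
    exact h2
  have hsum : ∑ _a ∈ conjs x, (1 : ZMod 2) = 0 := by
    apply Finset.sum_involution (fun a _ => a⁻¹)
    · intro a ha; decide
    · intro a ha _ hcon
      have ha0 : a ≠ 0 := fun h => e0 (h ▸ ha)
      have h3 : a * a = 1 := by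
        nth_rewrite 1 [← hcon]
        exact inv_mul_cancel₀ ha0
      rcases mul_self_eq_one_iff.mp h3 with h4 | h4
      · exact e1 (h4 ▸ ha)
      · exact e2 (h4 ▸ ha)
    · intro a ha; exact inv_inv a
    · intro a ha; exact hinv a ha
  rw [Finset.sum_const, card_conjs hx, nsmul_eq_mul, mul_one] at hsum
  have h2 : 2 ∣ (minpoly ℤ x).natDegree := (ZMod.natCast_eq_zero_iff _ 2).mp hsum
  rcases hodd with ⟨r, hr⟩
  omega

end Pool.Agent.R976.UG
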