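import Mathlib
import Pool.Agent.TH53.UG6
import Pool.Agent.H252R3.Leh.Fin

/-!
# The growth gap for eigenvalues whose minimal polynomials have many factors modulo a prime
-/

set_option autoImplicit false

open Polynomial Finset Module UniqueFactorizationMonoid
open scoped ComplexConjugate TensorProduct commutatorElement

namespace Pool.Agent.R976.UG

open Pool.Agent Pool.Agent.TH53.UG Pool.Agent.W963.GE

universe u

/-- the number of irreducible factors modulo `p` -/
noncomputable def numFactors (p : ℕ) [Fact p.Prime] (f : ℤ[X]) : ℕ :=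
  Multiset.card (normalizedFactors (f.map (Int.castRingHom (ZMod p))))

/-- the condition on the eigenvalues -/
def GoodP (P B : ℕ) (z : ℂ) : Prop :=
  (∃ m > 0, z ^ m = 1) ∨ ∃ (p : ℕ) (_ : Fact p.Prime), p ≤ P ∧
    (minpoly ℤ z).natDegree ≤ B * numFactors p (minpoly ℤ z)

/-- the constant -/
noncomputable def eps (P B : ℕ) : ℝ := (1 / (180 * (B : ℝ) ^ 2)) ^ 5 * (1 / (P : ℝ) ^ (2 * B + 2))

lemma eps_pos {P B : ℕ} (hP : 1 ≤ P) (hB : 1 ≤ B) : 0 < eps P B := by
  have h1 : (0 : ℝ) < B := by exact_mod_cast hB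
  have h2 : (0 : ℝ) < P := by exact_mod_cast hP
  unfold eps
  positivity

lemma eps_le {P B : ℕ} (hP : 1 ≤ P) (hB : 1 ≤ B) : eps P B ≤ 1 / 180 := by
  have h1 : (1 : ℝ) ≤ B := by exact_mod_cast hB
  have h2 : (1 : ℝ) ≤ P := by exact_mod_cast hP
  have h3 : (1 : ℝ) / (180 * (B : ℝ) ^ 2) ≤ 1 / 180 := by
    apply one_div_le_one_div_of_le (by norm_num)
    nlinarith
  have h4 : (1 / (180 * (B : ℝ) ^ 2)) ^ 5 ≤ (1 / 180 : ℝ) ^ 5 :=
    pow_le_pow_left₀ (by positivity) h3 5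
  have h5 : (1 : ℝ) / (P : ℝ) ^ (2 * B + 2) ≤ 1 := by
    rw [div_le_one (by positivity)]
    exact one_le_pow₀ h2
  unfold eps
  calc (1 / (180 * (B : ℝ) ^ 2)) ^ 5 * (1 / (P : ℝ) ^ (2 * B + 2)) ≤ (1 / 180) ^ 5 * 1 :=
        mul_le_mul h4 h5 (by positivity) (by norm_num)
    _ ≤ 1 / 180 := by norm_num

lemma log_MM_ge {P B : ℕ} (hB : 1 ≤ B) {x : ℂ} (hxi : IsIntegral ℤ x)
    (hM : 1 < MM x) {p : ℕ} [Fact p.Prime] (hpP : p ≤ P)
    (h : (minpoly ℤ x).natDegree ≤ B * numFactors p (minpoly ℤ x)) :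
    eps P B ≤ Real.log (MM x) := by
  have hp : p.Prime := Fact.out
  have hp1 : (1 : ℝ) < p := by exact_mod_cast hp.one_lt
  have hPp : (p : ℝ) ≤ P := by exact_mod_cast hpP
  have hB0 : (0 : ℝ) < B := by exact_mod_cast hB
  set f := minpoly ℤ x with hf
  have hd : 0 < f.natDegree := minpoly.natDegree_pos hxi
  have hd' : (0 : ℝ) < f.natDegree := by exact_mod_cast hd
  have h1 := H252R3.Leh.factor_bound (p := p) f (minpoly.irreducible hxi) hM
  set r : ℕ := Multiset.card (normalizedFactors (f.map (Int.castRingHom (ZMod p)))) with hr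
  have h' : f.natDegree ≤ B * r := h
  have hr0 : 0 < r := by
    rcases Nat.eq_zero_or_pos r with h0 | h0
    · rw [h0, mul_zero] at h'; omega
    · exact h0
  have hr' : (0 : ℝ) < r := by exact_mod_cast hr0
  have h2 : (f.natDegree : ℝ) ≤ B * r := by exact_mod_cast h'
  have h3 : 1 / (180 * (B : ℝ) ^ 2) ≤ ((r : ℝ) / f.natDegree) ^ 2 / 180 := by
    have h4 : 1 / (B : ℝ) ≤ (r : ℝ) / f.natDegree := by
      rw [div_le_div_iff₀ hB0 hd']
      linarith
    have h5 : (1 / (B : ℝ)) ^ 2 ≤ ((r : ℝ) / f.natDegree) ^ 2 :=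
      pow_le_pow_left₀ (by positivity) h4 2
    have h6 : 1 / (180 * (B : ℝ) ^ 2) = (1 / (B : ℝ)) ^ 2 / 180 := by
      field_simp
    rw [h6]
    exact div_le_div_of_nonneg_right h5 (by norm_num)
  have h4 : (1 : ℝ) / (P : ℝ) ^ (2 * B + 2) ≤ (p : ℝ) ^ (-(2 * (f.natDegree : ℝ) / (r : ℝ)) - 2) := by
    have h5 : (f.natDegree : ℝ) / r ≤ B := by
      rw [div_le_iff₀ hr']; exact h2
    have h6 : (-(2 * (B : ℝ) + 2)) ≤ -(2 * (f.natDegree : ℝ) / (r : ℝ)) - 2 := by
      have : 2 * (f.natDegree : ℝ) / r = 2 * ((f.natDegree : ℝ) / r) := by ring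
      rw [this]; linarith
    calc (1 : ℝ) / (P : ℝ) ^ (2 * B + 2) ≤ 1 / (p : ℝ) ^ (2 * B + 2) := by
          apply one_div_le_one_div_of_le (by positivity)
          exact pow_le_pow_left₀ (by linarith) hPp _
      _ = (p : ℝ) ^ (-(2 * (B : ℝ) + 2)) := by
          rw [Real.rpow_neg (by linarith), one_div]
          congr 1
          rw [← Real.rpow_natCast]
          congr 1
          push_cast
          ring
      _ ≤ _ := Real.rpow_le_rpow_of_exponent_le hp1.le h6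
  unfold eps
  refine le_trans ?_ h1
  exact mul_le_mul (pow_le_pow_left₀ (by positivity) h3 5) h4 (by positivity) (by positivity)

lemma eta_boundP {x : ℂ} (hx0 : x ≠ 0) (hxi : IsIntegral ℤ x) (hx : ∀ m > 0, x ^ m ≠ 1) {P B : ℕ}
    (hP : 1 ≤ P) (hB : 1 ≤ B) (hgood : GoodP P B x) : eps P B / 2 ≤ H746UG.eta x := by
  have hM1 := MM_gt x hxi hx0 hx
  have hM : 0 < MM x := zero_lt_one.trans hM1
  have he := eps_pos hP hB
  have he2 := eps_le hP hB
  refine le_trans ?_ (eta_ge x hx0 hxi)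
  rcases hgood with ⟨m, hm, h⟩ | ⟨p, hp, hpP, h⟩
  · exact absurd h (hx m hm)
  · have h1 := log_MM_ge hB hxi hM1 hpP h
    set w : ℝ := 2 * eps P B with hw
    have hw0 : 0 ≤ w := by positivity
    have hw1 : w ≤ 0.1 := by rw [hw]; linarith
    have h2 : Real.exp w ≤ MM x ^ 2 := by
      have h5 : w ≤ Real.log (MM x ^ 2) := by
        rw [Real.log_pow, hw]
        push_cast
        linarith
      calc Real.exp w ≤ Real.exp (Real.log (MM x ^ 2)) := Real.exp_le_exp.2 h5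
        _ = MM x ^ 2 := Real.exp_log (by positivity)
    have h3 : w - w ^ 2 / 2 ≤ 1 - 1 / MM x ^ 2 := by
      have h4 : 1 / MM x ^ 2 ≤ Real.exp (-w) := by
        rw [Real.exp_neg, ← one_div]
        exact one_div_le_one_div_of_le (Real.exp_pos _) h2
      have h5 : Real.exp (-w) ≤ 1 - w + w ^ 2 / 2 := by
        have h6 := Real.exp_pos w
        rw [Real.exp_neg]
        have h7 : 1 + w + w ^ 2 / 2 ≤ Real.exp w := Real.quadratic_le_exp_of_nonneg hw0
        have h8 : (Real.exp w)⁻¹ ≤ (1 + w + w ^ 2 / 2)⁻¹ := inv_anti₀ (by positivity) h7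
        have h9 : (1 + w + w ^ 2 / 2)⁻¹ ≤ 1 - w + w ^ 2 / 2 := by
          rw [inv_le_iff_one_le_mul₀ (by positivity)]
          nlinarith [sq_nonneg (w ^ 2)]
        linarith
      linarith
    have h4 := base_exp hM h3 (by nlinarith) (by nlinarith)
    refine le_trans ?_ h4
    have h5 : w * 0.95 ≤ w - w ^ 2 / 2 := by nlinarith
    linarith

/-- **the gap** -/
theorem gap_local {k d P B : ℕ} (hk : 1 ≤ k) (hP : 1 ≤ P) (hB : 1 ≤ B) {G : Type u} [Group G]
    (S : Set G) (hfin : S.Finite) (hgen : Subgroup.closure S = ⊤) (H : Subgroup G)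
    (hH0 : H.index ≠ 0) (hHd : H.index ≤ d)
    (hnil : Group.IsNilpotent (gam H k) ∨ ¬ Group.IsVirtuallyNilpotent (H ⧸ ⁅gam H k, gam H k⁆))
    (hgood : ∀ (t : H) (z : ℂ), Module.End.HasEigenvalue
      (LinearMap.baseChange ℂ (act (gam H k) t) :
        Module.End ℂ (ℂ ⊗[ℤ] (Additive (Abelianization (gam H k))))) z → GoodP P B z) :
    Group.IsVirtuallyNilpotent G ∨
      eps P B / (2 ^ (k + 2) * (2 * d - 1)) ≤ H746UG.rho S := by
  have e : eps P B / (2 ^ (k + 2) * (2 * d - 1)) =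
      (eps P B / 2) / (2 ^ (k + 1) * (2 * d - 1)) := by
    rw [div_div]
    congr 1
    ring
  rw [e]
  refine gap_general hk S hfin hgen H hH0 hHd hnil ?_ ?_
  · have := Real.log_two_gt_d9
    have := eps_le hP hB
    linarith
  · intro hMf t b x hx0 hx hp
    have hxi : IsIntegral ℤ x := integral_of_root _ b hp
    exact eta_boundP hx0 hxi hx hP hB
      (hgood t x (eig_of_root (act (gam H k) t) b hp (minpoly.aeval ℤ x)))

end Pool.Agent.R976.UG
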