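import Mathlib
import Pool.Agent.R976.UG.Bounds

/-!
# The growth gap for eigenvalues that are nonreciprocal, have many real conjugates or are of CM type
-/

set_option autoImplicit false

open Polynomial Finset Module
open scoped ComplexConjugate TensorProduct commutatorElement

namespace Pool.Agent.R976.UG

open Pool.Agent Pool.Agent.TH53.UG Pool.Agent.H338R2 Pool.Agent.W963.GE

universe u

/-- the condition on the eigenvalues -/
def Good (N : ℕ) (z : ℂ) : Prop :=
  (∃ m > 0, z ^ m = 1) ∨ Odd (minpoly ℚ z).natDegree ∨ aeval z⁻¹ (minpoly ℚ z) ≠ 0 ∨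
    (minpoly ℚ z).natDegree ≤ N * ((minpoly ℚ z).rootSet ℝ).ncard ∨
      ∃ h : ℚ[X], ∀ w : ℂ, aeval w (minpoly ℚ z) = 0 → conj w = aeval w h

lemma minpoly_eq {x : ℂ} (hx : IsIntegral ℤ x) :
    minpoly ℚ x = (minpoly ℤ x).map (algebraMap ℤ ℚ) :=
  minpoly.isIntegrallyClosed_eq_field_fractions' ℚ hx

lemma aeval_eq {x : ℂ} (hx : IsIntegral ℤ x) (w : ℂ) :
    aeval w (minpoly ℚ x) = aeval w (minpoly ℤ x) := by
  rw [minpoly_eq hx, aeval_map_algebraMap]

lemma natDegree_eq {x : ℂ} (hx : IsIntegral ℤ x) :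
    (minpoly ℚ x).natDegree = (minpoly ℤ x).natDegree := by
  rw [minpoly_eq hx]
  exact natDegree_map_eq_of_injective (algebraMap ℤ ℚ).injective_int _

lemma ncard_le_nreal {x : ℂ} (hx : IsIntegral ℤ x) :
    ((minpoly ℚ x).rootSet ℝ).ncard ≤ nreal x := by
  classical
  unfold nreal
  rw [← Set.ncard_coe_finset]
  apply Set.ncard_le_ncard_of_injOn (fun r : ℝ => (r : ℂ))
  · intro r hr
    rw [mem_rootSet] at hr
    rw [Finset.mem_coe, Finset.mem_filter, mem_conjs hx]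
    refine ⟨?_, Complex.ofReal_im r⟩
    rw [← aeval_eq hx]
    have h1 : aeval ((algebraMap ℝ ℂ) r) (minpoly ℚ x) = algebraMap ℝ ℂ (aeval r (minpoly ℚ x)) :=
      aeval_algebraMap_apply ℂ r (minpoly ℚ x)
    have h2 : (algebraMap ℝ ℂ) r = (r : ℂ) := rfl
    rw [h2, hr.2, map_zero] at h1
    exact h1
  · intro a _ b _ h
    exact Complex.ofReal_injective h

lemma eta_bound {x : ℂ} (hx0 : x ≠ 0) (hxi : IsIntegral ℤ x) (hx : ∀ m > 0, x ^ m ≠ 1) {N : ℕ}
    (hN : 1 ≤ N) (hgood : Good N x) : 1 / (3 * 4 ^ N) ≤ H746UG.eta x := by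
  have hl2 := Real.log_two_gt_d9
  have h4N : (4 : ℝ) ≤ 4 ^ N := by
    calc (4 : ℝ) = 4 ^ 1 := by norm_num
      _ ≤ 4 ^ N := pow_le_pow_right₀ (by norm_num) hN
  have hc : (1 : ℝ) / (3 * 4 ^ N) ≤ 1 / 12 := one_div_le_one_div_of_le (by norm_num) (by linarith)
  by_cases hi : IsIntegral ℤ x⁻¹
  swap
  · rw [H746UG.eta_eq_log_two x hx0 (fun h => hi h.2)]
    linarith
  have hM : 0 < MM x := zero_lt_one.trans_le (MM_ge x hxi)
  refine le_trans ?_ (eta_ge x hx0 hxi)
  have h128 : (1.28 : ℝ) ≤ MM x → 1 / (3 * 4 ^ N) ≤ Real.log (base (MM x)) := by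
    intro h1
    have h2 : (0.389 : ℝ) ≤ 1 - 1 / MM x ^ 2 := by
      have h3 : (1.28 : ℝ) ^ 2 ≤ MM x ^ 2 := pow_le_pow_left₀ (by norm_num) h1 2
      have h4 : 1 / MM x ^ 2 ≤ 1 / (1.28 : ℝ) ^ 2 := one_div_le_one_div_of_le (by norm_num) h3
      have h5 : (1 : ℝ) / (1.28) ^ 2 ≤ 0.611 := by norm_num
      linarith
    have h3 := base_exp hM h2 (by norm_num) (by norm_num)
    linarith
  have hnr : aeval x⁻¹ (minpoly ℤ x) ≠ 0 → 1 / (3 * 4 ^ N) ≤ Real.log (base (MM x)) :=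
    fun h => h128 (nonrecip hxi hx0 hi h)
  have h2d := two_le_deg hxi hx0 hi hx
  rcases hgood with ⟨m, hm, h⟩ | h | h | h | ⟨h, hh⟩
  · exact absurd h (hx m hm)
  · rw [natDegree_eq hxi] at h
    exact hnr (nonrec_of_odd hxi hx0 hx h)
  · rw [aeval_eq hxi] at h
    exact hnr h
  · rw [natDegree_eq hxi] at h
    have h1 := four_le hxi hx0 hx h2d hN (h.trans (Nat.mul_le_mul_left N (ncard_le_nreal hxi)))
    set w : ℝ := 2 * Real.log 2 / 4 ^ N with hw
    have hl2' := Real.log_two_lt_d9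
    have hw0 : 0 ≤ w := by positivity
    have hw1 : w ≤ 0.35 := by
      rw [hw, div_le_iff₀ (by positivity)]
      linarith
    have h2 : Real.exp w ≤ MM x ^ 2 := by
      have h3 : Real.log 4 ≤ (2 * 4 ^ N : ℕ) * Real.log (MM x) := by
        rw [← Real.log_pow]
        exact Real.log_le_log (by norm_num) h1
      have h4 : Real.log 4 = 2 * Real.log 2 := by
        rw [show (4 : ℝ) = 2 ^ 2 by norm_num, Real.log_pow]; norm_num
      rw [h4] at h3
      push_cast at h3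
      have h5 : w ≤ Real.log (MM x ^ 2) := by
        rw [Real.log_pow, hw, div_le_iff₀ (by positivity)]
        push_cast
        linarith
      calc Real.exp w ≤ Real.exp (Real.log (MM x ^ 2)) := Real.exp_le_exp.2 h5
        _ = MM x ^ 2 := Real.exp_log (by positivity)
    have h3 : w - w ^ 2 / 2 ≤ 1 - 1 / MM x ^ 2 := by
      have h4 : 1 / MM x ^ 2 ≤ Real.exp (-w) := by
        rw [Real.exp_neg, ← one_div]
        exact one_div_le_one_div_of_le (Real.exp_pos _) h2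
      have h5 : Real.exp (-w) ≤ 1 - w + w ^ 2 / 2 := by
        have h6 := Real.exp_pos w
        rw [Real.exp_neg]
        have h7 : 1 + w + w ^ 2 / 2 ≤ Real.exp w := Real.quadratic_le_exp_of_nonneg hw0
        have h8 : (Real.exp w)⁻¹ ≤ (1 + w + w ^ 2 / 2)⁻¹ := inv_anti₀ (by positivity) h7
        have h9 : (1 + w + w ^ 2 / 2)⁻¹ ≤ 1 - w + w ^ 2 / 2 := by
          rw [inv_le_iff_one_le_mul₀ (by positivity)]
          nlinarith [sq_nonneg (w ^ 2)]
        linarith
      linarith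
    have h4 := base_exp hM h3 (by nlinarith) (by nlinarith)
    refine le_trans ?_ h4
    have h5 : w * 0.825 ≤ w - w ^ 2 / 2 := by nlinarith
    have h6 : 1 / (3 * (4 : ℝ) ^ N) ≤ w * 0.825 / 3 := by
      have h7 : (0 : ℝ) < 4 ^ N := by positivity
      rw [hw, div_mul_eq_mul_div, div_div, div_le_div_iff₀ (by positivity) (by positivity)]
      nlinarith
    linarith
  · have h1 := cm_bound hxi hx0 hx (h := h) (fun z hz => hh z (by rw [aeval_eq hxi]; exact hz))
    have h3 : (27 / 4 : ℝ) ^ 2 ≤ MM x ^ 8 :=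
      (pow_le_pow_right₀ (by norm_num) h2d).trans h1
    have h4 := base_quarter hM h3
    linarith

/-- **the gap** -/
theorem gap_good {k d N : ℕ} (hk : 1 ≤ k) (hN : 1 ≤ N) {G : Type u} [Group G] (S : Set G)
    (hfin : S.Finite) (hgen : Subgroup.closure S = ⊤) (H : Subgroup G) (hH0 : H.index ≠ 0)
    (hHd : H.index ≤ d)
    (hnil : Group.IsNilpotent (gam H k) ∨ ¬ Group.IsVirtuallyNilpotent (H ⧸ ⁅gam H k, gam H k⁆))
    (hgood : ∀ (t : H) (z : ℂ), Module.End.HasEigenvalue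
      (LinearMap.baseChange ℂ (act (gam H k) t) :
        Module.End ℂ (ℂ ⊗[ℤ] (Additive (Abelianization (gam H k))))) z → Good N z) :
    Group.IsVirtuallyNilpotent G ∨
      1 / (3 * 4 ^ N * (2 ^ (k + 1) * (2 * d - 1))) ≤ H746UG.rho S := by
  have e : (1 : ℝ) / (3 * 4 ^ N * (2 ^ (k + 1) * (2 * d - 1))) =
      (1 / (3 * 4 ^ N)) / (2 ^ (k + 1) * (2 * d - 1)) := by
    rw [div_div]
  rw [e]
  refine gap_general hk S hfin hgen H hH0 hHd hnil ?_ ?_
  · have h4N : (4 : ℝ) ≤ 4 ^ N := by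
      calc (4 : ℝ) = 4 ^ 1 := by norm_num
        _ ≤ 4 ^ N := pow_le_pow_right₀ (by norm_num) hN
    have hc : (1 : ℝ) / (3 * 4 ^ N) ≤ 1 / 12 :=
      one_div_le_one_div_of_le (by norm_num) (by linarith)
    have := Real.log_two_gt_d9
    linarith
  · intro hMf t b x hx0 hx hp
    have hxi : IsIntegral ℤ x := integral_of_root _ b hp
    exact eta_bound hx0 hxi hx hN
      (hgood t x (eig_of_root (act (gam H k) t) b hp (minpoly.aeval ℤ x)))

end Pool.Agent.R976.UG
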